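import Pool.Agent.Helper69.SW.St

/-!
# Project SW (MP_65faa7, bulk case, block S): concave powers
-/

set_option autoImplicit false

open scoped BigOperators ENNReal Topology
open Pool.LE Pool.NL Pool.CL Pool.CB Filter

namespace Pool.SW

namespace ConM

theorem card_nb {d : ℕ} (x : Zd d) : (nb x).card ≤ 2 * d := by
  unfold nb
  refine le_trans (Finset.card_union_le _ _) ?_
  have h1 : (Finset.univ.image (fun i : Fin d => x + Pi.single i (1 : ℤ))).card ≤ d := by
    refine le_trans Finset.card_image_le ?_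
    rw [Finset.card_univ, Fintype.card_fin]
  have h2 : (Finset.univ.image (fun i : Fin d => x - Pi.single i (1 : ℤ))).card ≤ d := by
    refine le_trans Finset.card_image_le ?_
    rw [Finset.card_univ, Fintype.card_fin]
  omega

theorem tangent {a t s : ℝ} (ha : 0 < a) (ht : 0 < t) (hs0 : 0 ≤ s) (hs1 : s ≤ 1) :
    t ^ s ≤ a ^ s + s * a ^ (s - 1) * (t - a) := by
  have h1 : (1 + (t / a - 1)) ^ s ≤ 1 + s * (t / a - 1) := by
    refine _root_.rpow_one_add_le_one_add_mul_self ?_ hs0 hs1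
    have : 0 < t / a := div_pos ht ha
    linarith
  have h2 : 1 + (t / a - 1) = t / a := by ring
  rw [h2] at h1
  have h3 : t ^ s = a ^ s * (t / a) ^ s := by
    rw [← Real.mul_rpow ha.le (div_pos ht ha).le, mul_div_cancel₀ _ ha.ne']
  have h4 : a ^ (s - 1) = a ^ s / a := Real.rpow_sub_one ha.ne' s
  rw [h3, h4]
  have h5 := mul_le_mul_of_nonneg_left h1 (Real.rpow_nonneg ha.le s)
  refine le_trans h5 (le_of_eq ?_)
  field_simp

end ConM

theorem hCon (_hBox : StBox) : StCon := by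
  intro d w s x hw hs0 hs1
  have ha := hw x
  have hAs : 0 < w x ^ s := Real.rpow_pos_of_pos ha s
  have hcard : ((nb x).card : ℝ) ≤ 2 * d := by exact_mod_cast ConM.card_nb x
  unfold AL
  have h1 : ∑ b ∈ nb x, w b ^ s ≤ ∑ b ∈ nb x, (w x ^ s + s * w x ^ (s - 1) * (w b - w x)) :=
    Finset.sum_le_sum fun b _ => ConM.tangent ha (hw b) hs0.le hs1
  rw [Finset.sum_add_distrib, Finset.sum_const, nsmul_eq_mul, ← Finset.mul_sum,
    Finset.sum_sub_distrib, Finset.sum_const, nsmul_eq_mul] at h1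
  have h4 : w x ^ (s - 1) * w x = w x ^ s := by
    rw [Real.rpow_sub_one ha.ne' s]
    field_simp
  have h5 : 0 ≤ (2 * d - ((nb x).card : ℝ)) * ((1 - s) * w x ^ s) :=
    mul_nonneg (by linarith) (mul_nonneg (by linarith) hAs.le)
  have h6 : s * w x ^ (s - 1) * (∑ b ∈ nb x, w b - ((nb x).card : ℝ) * w x) =
      s * w x ^ (s - 1) * ∑ b ∈ nb x, w b - s * ((nb x).card : ℝ) * w x ^ s := by
    rw [← h4]; ring
  have h7 : s * w x ^ (s - 1) * (2 * d * w x - ∑ b ∈ nb x, w b) =
      s * (2 * d) * w x ^ s - s * w x ^ (s - 1) * ∑ b ∈ nb x, w b := by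
    rw [← h4]; ring
  rw [h7]
  rw [h6] at h1
  nlinarith [h1, h5]

end Pool.SW
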